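import Pool.Agent.H1.BL.Tcr
import Pool.Agent.H1.BL.Rbf

/-!
Order of vanishing at `1` of polynomials with coefficients in `{-1, 0, 1}`: distribution of the
endpoints of the blocks of the support in the residue classes modulo `L`.
-/

namespace Pool.Agent.Results.MP_ff76c9_an.BlockClasses

open Polynomial Finset

/-- `k` is the order of vanishing of `p` at `1`. In (1), (2), (3), `p ≠ 0` of degree at most `n` with
coefficients in `{-1, 0, 1}`. The endpoints (of difference `d`) are the `j` for which exactly one of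
`j`, `j - d` is in the support (all of them are at most `n + d`).

(1) If at most `t` endpoints are not `≡ r` modulo `L`, then
`k ≤ C * log n * (sqrt (t m / log (t m)) + t log n / log (t log n))`, `m = n / L + 2`.

(2) If `k ≥ ε * sqrt n`, then at least `c * min L (sqrt n) / log n - 1` endpoints are not `≡ r`
modulo `L`, with `c` depending on `ε`.

(3) Suppose that every element `j` of the support such that `j - d` is not in the support is `≡ u`
modulo `L`, and that `j + d ≡ v` modulo `L` for every element `j` of the support such that `j + d` is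
not in the support. Then `k ≤ C * log n * (sqrt (m / log m) + log n / log log n)`, `m = n / L + 2`,
and `k ≥ ε * sqrt n` implies `L ≤ C * log n`, with `C` depending on `ε`.

(4) General form: `l` prime, the sum of the absolute values of the coefficients of `p` at most `H`,
`deg (p * h) ≤ N`, `p * h` not zero modulo `l`, `(X - 1) ^ k` divides `p`, `m = N / L + 2`. If the
exponents of the reduction of `p * h` modulo `l` lie in at most two residue classes modulo `L ≤ N`,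
then `k ≤ C * log H * (sqrt (m / log m) + log (l N) / log log (l N))`. If all of them but at most `t`
lie in one residue class modulo `L`, then
`k ≤ C * log H * (sqrt (t m / log (t m)) + t log (l N) / log (t log (l N)))`. -/
theorem result :
    (∃ C : ℝ, 0 < C ∧ ∀ (n L d r t : ℕ) (p : ℤ[X]), 3 ≤ n → 1 ≤ L → L ≤ n →
      1 ≤ d → d ≤ n → 1 ≤ t → p ≠ 0 → p.natDegree ≤ n →
      (∀ i, p.coeff i = -1 ∨ p.coeff i = 0 ∨ p.coeff i = 1) →
      ((range (n + d + 1)).filter fun j => ¬ (p.coeff j ≠ 0 ↔ d ≤ j ∧ p.coeff (j - d) ≠ 0) ∧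
        ¬ j ≡ r [MOD L]).card ≤ t →
      (p.rootMultiplicity 1 : ℝ) ≤ C * Real.log n *
        (Real.sqrt (t * ((n : ℝ) / L + 2) / Real.log (t * ((n : ℝ) / L + 2)))
          + t * Real.log n / Real.log (t * Real.log n))) ∧
    (∀ ε : ℝ, 0 < ε → ∃ c : ℝ, 0 < c ∧ ∀ (n L d r : ℕ) (p : ℤ[X]), 3 ≤ n →
      1 ≤ L → L ≤ n → 1 ≤ d → d ≤ n → p ≠ 0 → p.natDegree ≤ n →
      (∀ i, p.coeff i = -1 ∨ p.coeff i = 0 ∨ p.coeff i = 1) →
      ε * Real.sqrt n ≤ p.rootMultiplicity 1 →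
      c * min (L : ℝ) (Real.sqrt n) / Real.log n ≤
        ((range (n + d + 1)).filter fun j => ¬ (p.coeff j ≠ 0 ↔ d ≤ j ∧ p.coeff (j - d) ≠ 0) ∧
          ¬ j ≡ r [MOD L]).card + 1) ∧
    (∃ C : ℝ, 0 < C ∧ ∀ (n L d u v : ℕ) (p : ℤ[X]), 3 ≤ n → 1 ≤ L → L ≤ n →
      1 ≤ d → d ≤ n → p ≠ 0 → p.natDegree ≤ n →
      (∀ i, p.coeff i = -1 ∨ p.coeff i = 0 ∨ p.coeff i = 1) →
      (∀ j, p.coeff j ≠ 0 → j < d ∨ p.coeff (j - d) = 0 → j ≡ u [MOD L]) →
      (∀ j, p.coeff j ≠ 0 → p.coeff (j + d) = 0 → j + d ≡ v [MOD L]) →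
      (p.rootMultiplicity 1 : ℝ) ≤ C * Real.log n *
        (Real.sqrt (((n : ℝ) / L + 2) / Real.log ((n : ℝ) / L + 2))
          + Real.log n / Real.log (Real.log n))) ∧
    (∀ ε : ℝ, 0 < ε → ∃ C : ℝ, 0 < C ∧
      ∀ (n L d u v : ℕ) (p : ℤ[X]), 3 ≤ n → 1 ≤ L → L ≤ n →
      1 ≤ d → d ≤ n → p ≠ 0 → p.natDegree ≤ n →
      (∀ i, p.coeff i = -1 ∨ p.coeff i = 0 ∨ p.coeff i = 1) →
      (∀ j, p.coeff j ≠ 0 → j < d ∨ p.coeff (j - d) = 0 → j ≡ u [MOD L]) →
      (∀ j, p.coeff j ≠ 0 → p.coeff (j + d) = 0 → j + d ≡ v [MOD L]) →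
      ε * Real.sqrt n ≤ p.rootMultiplicity 1 → (L : ℝ) ≤ C * Real.log n) ∧
    (∃ C : ℝ, 0 < C ∧ ∀ l : ℕ, l.Prime → ∀ (p h : ℤ[X]) (H : ℝ) (N L k : ℕ),
      2 ≤ H → 3 ≤ N → 1 ≤ L → L ≤ N → ∑ i ∈ p.support, |(p.coeff i : ℝ)| ≤ H →
      (p * h).natDegree ≤ N → (∃ j, ¬ (l : ℤ) ∣ (p * h).coeff j) → (X - 1) ^ k ∣ p →
      (∀ e1 e2 : ℕ, (∀ j, ¬ (l : ℤ) ∣ (p * h).coeff j → j ≡ e1 [MOD L] ∨ j ≡ e2 [MOD L]) →
        (k : ℝ) ≤ C * Real.log H * (Real.sqrt (((N : ℝ) / L + 2) / Real.log ((N : ℝ) / L + 2))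
          + Real.log (l * N) / Real.log (Real.log (l * N)))) ∧
      (∀ r t : ℕ, 1 ≤ t → ((range (N + 1)).filter fun j =>
          ¬ (l : ℤ) ∣ (p * h).coeff j ∧ ¬ j ≡ r [MOD L]).card ≤ t →
        (k : ℝ) ≤ C * Real.log H *
          (Real.sqrt (t * ((N : ℝ) / L + 2) / Real.log (t * ((N : ℝ) / L + 2)))
            + t * Real.log (l * N) / Real.log (t * Real.log (l * N))))) := by
  refine ⟨Pool.Agent.H1.BL.rb_ends, fun _ hε => Pool.Agent.H1.BL.rb_extremal hε,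
    Pool.Agent.H1.BL.classes, fun _ hε => Pool.Agent.H1.BL.classes_extremal hε, ?_⟩
  obtain ⟨C1, hC1, h1⟩ := Pool.Agent.H1.BL.tc
  obtain ⟨C2, hC2, h2⟩ := Pool.Agent.H1.BL.rb
  have up : ∀ {k c x y : ℝ}, 0 ≤ k → 0 < c → c ≤ C1 + C2 → k ≤ c * x * y →
      k ≤ (C1 + C2) * x * y := by
    intro k c x y hk hc hcc h
    have h4 : 0 ≤ c * (x * y) := by linarith
    have h5 : 0 ≤ x * y := nonneg_of_mul_nonneg_right h4 hc
    calc k ≤ c * (x * y) := by linarith
      _ ≤ (C1 + C2) * (x * y) := mul_le_mul_of_nonneg_right hcc h5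
      _ = (C1 + C2) * x * y := by ring
  refine ⟨C1 + C2, by positivity, ?_⟩
  intro l hl p h H N L k hH hN hL hLN hs hdeg hne hk
  refine ⟨fun e1 e2 hcon => ?_, fun r t ht hcon => ?_⟩
  · exact up (by positivity) hC1 (by linarith)
      (h1 l hl p h H N L e1 e2 k hH hN hL hLN hs hdeg hne hcon hk)
  · exact up (by positivity) hC2 (by linarith)
      (h2 l hl p h H N L r t k hH hN hL hLN ht hs hdeg hne hcon hk)

end Pool.Agent.Results.MP_ff76c9_an.BlockClasses
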