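import Pool.Agent.H1.FV.Res

/-!
Order of vanishing at `1` of polynomials with coefficients in `{-1, 0, 1}`: flat polynomials
(Mahler measure comparable with the `L²` norm) vanish at `1` to order
`O(sqrt n (log log n)^(3/2) / sqrt (log n))`, hence `o(sqrt n)`.
-/

namespace Pool.Agent.Results.MP_ff76c9_an.FlatVanishing

open Polynomial

/-- (1) For all `n ≥ 3` and all nonzero `p` of degree at most `n` with coefficients in `{-1, 0, 1}`,
with `k` the order of vanishing of `p` at `1`, `‖p‖₂` the `ℓ²` norm of the coefficients and `M(p)` the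
Mahler measure: `min (k², n) * log n ≤ C * n * (log log n)³ * (1 + log (‖p‖₂ / M(p)))`.
(2) For every `c > 0` there is `C` such that `M(p) ≥ c ‖p‖₂` implies
`k ≤ C * sqrt n * (log log n)^(3/2) / sqrt (log n)`. -/
theorem result :
    (∃ C : ℝ, 0 < C ∧ ∀ n : ℕ, 3 ≤ n → ∀ p : ℤ[X], p ≠ 0 → p.natDegree ≤ n →
      (∀ i, p.coeff i = -1 ∨ p.coeff i = 0 ∨ p.coeff i = 1) →
      min ((p.rootMultiplicity 1 : ℝ) ^ 2) n * Real.log n
        ≤ C * n * Real.log (Real.log n) ^ 3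
          * (1 + Real.log (Real.sqrt (∑ i ∈ p.support, (p.coeff i : ℝ) ^ 2)
            / (p.map (Int.castRingHom ℂ)).mahlerMeasure)))
    ∧ (∀ c : ℝ, 0 < c → ∃ C : ℝ, 0 < C ∧ ∀ n : ℕ, 3 ≤ n → ∀ p : ℤ[X], p ≠ 0 →
      p.natDegree ≤ n → (∀ i, p.coeff i = -1 ∨ p.coeff i = 0 ∨ p.coeff i = 1) →
      c * Real.sqrt (∑ i ∈ p.support, (p.coeff i : ℝ) ^ 2)
        ≤ (p.map (Int.castRingHom ℂ)).mahlerMeasure →
      (p.rootMultiplicity 1 : ℝ)
        ≤ C * Real.sqrt n * Real.log (Real.log n) ^ (3 / 2 : ℝ) / Real.sqrt (Real.log n)) := by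
  have key : ∀ p : ℤ[X], (∀ i, p.coeff i = -1 ∨ p.coeff i = 0 ∨ p.coeff i = 1) →
      ∀ i, |p.coeff i| ≤ 1 := by
    intro p h i
    rcases h i with h | h | h <;> simp [h]
  refine ⟨?_, fun c hc => ?_⟩
  · obtain ⟨C, hC, h⟩ := Pool.Agent.H1.FV.part1
    exact ⟨C, hC, fun n hn p hp hdeg hco => h n hn p hp hdeg (key p hco)⟩
  · obtain ⟨C, hC, h⟩ := Pool.Agent.H1.FV.part2 hc
    exact ⟨C, hC, fun n hn p hp hdeg hco hM => h n hn p hp hdeg (key p hco) hM⟩

end Pool.Agent.Results.MP_ff76c9_an.FlatVanishing
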