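import Pool.Agent.H35.V1.Asymp

/-!
Order of vanishing at `1` of polynomials with coefficients in `{-1, 0, 1}`: a lower bound that
beats the pigeonhole bound `c * sqrt (n / log n)` by the unbounded factor `sqrt (log log n)`.
-/

namespace Pool.Agent.Results.MP_ff76c9_an.LogLogGain

open Polynomial

/-- There is an absolute constant `c > 0` such that for every `n ≥ 3` some nonzero polynomial of
degree at most `n` with coefficients in `{-1, 0, 1}` vanishes at `1` to order at least
`c * sqrt (n * log log n / log n)`. -/
theorem result : ∃ c : ℝ, 0 < c ∧ ∀ n : ℕ, 3 ≤ n →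
    ∃ p : ℤ[X], p ≠ 0 ∧ p.natDegree ≤ n ∧
      (∀ i, p.coeff i = -1 ∨ p.coeff i = 0 ∨ p.coeff i = 1) ∧
      c * Real.sqrt (n * Real.log (Real.log n) / Real.log n) ≤ (p.rootMultiplicity 1 : ℝ) := by
  obtain ⟨c, hc, h⟩ := Pool.Agent.H35.V1.large
  obtain ⟨N, hN⟩ := Filter.eventually_atTop.1 h
  refine ⟨min c (1 / (N + 1)), by positivity, fun n hn => ?_⟩
  rcases le_total N n with hNn | hNn
  · obtain ⟨p, hp0, hpdeg, hpc, k, hk, hck⟩ := hN n hNn
    refine ⟨p, hp0, hpdeg, fun i => ?_, ?_⟩
    · have h1 := abs_le.1 (hpc i)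
      have h2 := h1.1
      have h3 := h1.2
      omega
    · have h1 : k ≤ p.rootMultiplicity 1 := by
        rw [le_rootMultiplicity_iff hp0]
        simpa using hk
      have h2 : (k : ℝ) ≤ (p.rootMultiplicity 1 : ℝ) := by exact_mod_cast h1
      refine le_trans ?_ h2
      refine le_trans ?_ hck
      exact mul_le_mul_of_nonneg_right (min_le_left _ _) (Real.sqrt_nonneg _)
  · have hX : (X - C (1 : ℤ)) ≠ 0 := X_sub_C_ne_zero 1
    refine ⟨X - C (1 : ℤ), hX, ?_, fun i => ?_, ?_⟩
    · rw [natDegree_X_sub_C]
      omega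
    · rw [coeff_sub, coeff_X, coeff_C]
      split_ifs <;> simp
    · rw [rootMultiplicity_X_sub_C_self]
      have hn3 : (3 : ℝ) ≤ n := by exact_mod_cast hn
      have hlog1 : 1 ≤ Real.log n := by
        rw [Real.le_log_iff_exp_le (by linarith)]
        have := Real.exp_one_lt_d9
        linarith
      have hll : Real.log (Real.log n) ≤ Real.log n := by
        have := Real.log_le_sub_one_of_pos (show 0 < Real.log n by linarith)
        linarith
      have h1 : (n : ℝ) * Real.log (Real.log n) / Real.log n ≤ n := by
        rw [div_le_iff₀ (by linarith)]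
        exact mul_le_mul_of_nonneg_left hll (by linarith)
      have h2 : Real.sqrt (n * Real.log (Real.log n) / Real.log n) ≤ n := by
        calc Real.sqrt (n * Real.log (Real.log n) / Real.log n) ≤ Real.sqrt n :=
              Real.sqrt_le_sqrt h1
          _ ≤ n := by
              rw [Real.sqrt_le_left (by linarith)]
              nlinarith
      have h3 : (n : ℝ) ≤ N := by exact_mod_cast hNn
      calc min c (1 / ((N : ℝ) + 1)) * Real.sqrt (n * Real.log (Real.log n) / Real.log n)
          ≤ (1 / ((N : ℝ) + 1)) * N := by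
            apply mul_le_mul (min_le_right _ _) (h2.trans h3) (Real.sqrt_nonneg _)
            positivity
        _ ≤ ((1 : ℕ) : ℝ) := by
            rw [one_div, inv_mul_le_iff₀ (by positivity)]
            push_cast
            linarith

end Pool.Agent.Results.MP_ff76c9_an.LogLogGain
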