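import Pool.Agent.H1.BL.Res

/-!
Order of vanishing at `1` of polynomials with coefficients in `{-1, 0, 1}`: upper bounds for
polynomials whose support is structured (few blocks or progressions, few zero coefficients, aligned
blocks of a given length, product sets).
-/

namespace Pool.Agent.Results.MP_ff76c9_an.StructuredSupport

open Polynomial Finset

/-- `k` is the order of vanishing of `p` at `1`.

(1) If `p * h` is congruent modulo the prime `l` to `F(X) * ∏_{i < s} G_i(X ^ L_i)`, not zero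
modulo `l`, `F` of degree at most `N` with at most `t` coefficients not divisible by `l`, and the
sum of the absolute values of the coefficients of `p` is at most `H`, then
`k ≤ C * log H * (sqrt (t m / log (t m)) + Λ / log Λ)` for all `m ≥ 2 + ∑ deg G_i` and
`Λ ≥ t log N + log (l ∏ L_i)`.

(2) Product supports `{a * L + b : a ∈ A, b ∈ B}`, `A ⊆ [0, M)`, `B ⊆ [0, L)`, `B` splitting into at
most `r` maximal arithmetic progressions of difference `d`.

(3) Supports splitting into at most `r` maximal arithmetic progressions of difference `d`.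

(4) At most `m` zero coefficients.

(5) `k ≥ ε sqrt n` forces many progressions for every difference, and many zero coefficients.

(6) `k ≥ ε sqrt n` for product supports.

(7) Lower bound for supports which are unions of blocks `[a * L, a * L + L)`. -/
theorem result :
    (∃ C : ℝ, 0 < C ∧
      (∀ l : ℕ, l.Prime → ∀ (p h F : ℤ[X]) (G : ℕ → ℤ[X]) (L : ℕ → ℕ)
        (H : ℝ) (N t s k : ℕ) (m Λ : ℝ), 2 ≤ H → 3 ≤ N →
        ∑ i ∈ p.support, |(p.coeff i : ℝ)| ≤ H → F.natDegree ≤ N →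
        ((range (N + 1)).filter fun j => ¬ (l : ℤ) ∣ F.coeff j).card ≤ t →
        (∀ i < s, 1 ≤ L i) →
        (∀ j, (l : ℤ) ∣ (p * h - F * ∏ i ∈ range s, (G i).comp (X ^ L i)).coeff j) →
        (∃ j, ¬ (l : ℤ) ∣ (p * h).coeff j) →
        (X - 1) ^ k ∣ p →
        2 + ∑ i ∈ range s, ((G i).natDegree : ℝ) ≤ m →
        t * Real.log N + Real.log ((l * ∏ i ∈ range s, L i : ℕ) : ℝ) ≤ Λ →
        (k : ℝ) ≤ C * Real.log H * (Real.sqrt (t * m / Real.log (t * m)) + Λ / Real.log Λ)) ∧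
      (∀ (L M d r : ℕ) (A B : Finset ℕ) (p : ℤ[X]), 1 ≤ d → d ≤ L →
        3 ≤ M * L → p ≠ 0 → (∀ i, p.coeff i = -1 ∨ p.coeff i = 0 ∨ p.coeff i = 1) →
        (∀ a ∈ A, a < M) → (∀ b ∈ B, b < L) →
        (∀ j, p.coeff j ≠ 0 ↔ j / L ∈ A ∧ j % L ∈ B) →
        (B.filter fun b => b < d ∨ b - d ∉ B).card ≤ r →
        (p.rootMultiplicity 1 : ℝ) ≤ C * Real.log ((M * L : ℕ) : ℝ) *
          (Real.sqrt ((r : ℝ) * (M + 1) / Real.log ((r : ℝ) * (M + 1)))
            + r * Real.log ((M * L : ℕ) : ℝ) / Real.log (r * Real.log ((M * L : ℕ) : ℝ)))) ∧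
      (∀ (n d r : ℕ) (p : ℤ[X]), 3 ≤ n → 1 ≤ d → d ≤ n → p ≠ 0 →
        p.natDegree ≤ n → (∀ i, p.coeff i = -1 ∨ p.coeff i = 0 ∨ p.coeff i = 1) →
        (p.support.filter fun j => j < d ∨ p.coeff (j - d) = 0).card ≤ r →
        (p.rootMultiplicity 1 : ℝ) * Real.log (r * Real.log n) ≤ C * r * Real.log n ^ 2) ∧
      (∀ (n m : ℕ) (p : ℤ[X]), 3 ≤ n → p ≠ 0 →
        p.natDegree ≤ n → (∀ i, p.coeff i = -1 ∨ p.coeff i = 0 ∨ p.coeff i = 1) →
        ((range (n + 1)).filter fun j => p.coeff j = 0).card ≤ m →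
        (p.rootMultiplicity 1 : ℝ) * Real.log ((m + 1) * Real.log n)
          ≤ C * (m + 1) * Real.log n ^ 2)) ∧
    (∀ ε : ℝ, 0 < ε → ∃ c C : ℝ, 0 < c ∧ 0 < C ∧
      (∀ (n : ℕ) (p : ℤ[X]), 3 ≤ n → p ≠ 0 → p.natDegree ≤ n →
        (∀ i, p.coeff i = -1 ∨ p.coeff i = 0 ∨ p.coeff i = 1) →
        ε * Real.sqrt n ≤ p.rootMultiplicity 1 →
        (∀ d, 1 ≤ d → d ≤ n → c * Real.sqrt n / Real.log n
          ≤ (p.support.filter fun j => j < d ∨ p.coeff (j - d) = 0).card) ∧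
        c * Real.sqrt n / Real.log n
          ≤ ((range (n + 1)).filter fun j => p.coeff j = 0).card + 1) ∧
      (∀ (n L d r : ℕ) (A B : Finset ℕ) (p : ℤ[X]), 3 ≤ n → 1 ≤ d → d ≤ L → L ≤ n + 1 →
        p ≠ 0 → p.natDegree ≤ n → (∀ i, p.coeff i = -1 ∨ p.coeff i = 0 ∨ p.coeff i = 1) →
        (∀ b ∈ B, b < L) → (∀ j, p.coeff j ≠ 0 ↔ j / L ∈ A ∧ j % L ∈ B) →
        (B.filter fun b => b < d ∨ b - d ∉ B).card ≤ r →
        ε * Real.sqrt n ≤ p.rootMultiplicity 1 →
        c * Real.sqrt n / Real.log n ≤ r ∨ (L : ℝ) ≤ C * r * Real.log n)) ∧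
    (∃ c : ℝ, 0 < c ∧ ∀ L M : ℕ, 1 ≤ L → 3 ≤ M →
      ∃ (A : Finset ℕ) (p : ℤ[X]), p ≠ 0 ∧ p.natDegree < (M + 1) * L ∧
        (∀ i, p.coeff i = -1 ∨ p.coeff i = 0 ∨ p.coeff i = 1) ∧
        (∀ j, p.coeff j ≠ 0 ↔ j / L ∈ A) ∧
        c * Real.sqrt (M * Real.log (Real.log M) / Real.log M) ≤ (p.rootMultiplicity 1 : ℝ)) := by
  refine ⟨?_, ?_, Pool.Agent.H1.BL.lower_blocks⟩
  · obtain ⟨C1, hC1, h1⟩ := Pool.Agent.H1.BL.uni
    obtain ⟨C2, hC2, h2⟩ := Pool.Agent.H1.BL.prs_core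
    obtain ⟨C3, hC3, h3⟩ := Pool.Agent.H1.BL.prog
    have up : ∀ {k c x y : ℝ}, 0 ≤ k → 0 < c → c ≤ C1 + C2 + C3 → k ≤ c * x * y →
        k ≤ (C1 + C2 + C3) * x * y := by
      intro k c x y hk hc hcc h
      have h4 : 0 ≤ c * (x * y) := by linarith
      have h5 : 0 ≤ x * y := nonneg_of_mul_nonneg_right h4 hc
      calc k ≤ c * (x * y) := by linarith
        _ ≤ (C1 + C2 + C3) * (x * y) := mul_le_mul_of_nonneg_right hcc h5
        _ = (C1 + C2 + C3) * x * y := by ring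
    have hp3 : ∀ (n d r : ℕ) (p : ℤ[X]), 3 ≤ n → 1 ≤ d → d ≤ n → p ≠ 0 →
        p.natDegree ≤ n → (∀ i, p.coeff i = -1 ∨ p.coeff i = 0 ∨ p.coeff i = 1) →
        (p.support.filter fun j => j < d ∨ p.coeff (j - d) = 0).card ≤ r →
        (p.rootMultiplicity 1 : ℝ) * Real.log (r * Real.log n)
          ≤ (C1 + C2 + C3) * r * Real.log n ^ 2 := by
      intro n d r p hn hd hdn hp hdeg hco hr
      refine (h3 n d r p hn hd hdn hp hdeg hco hr).trans ?_
      have h4 : 0 ≤ (r : ℝ) * Real.log n ^ 2 := by positivity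
      have h5 : C3 * (r * Real.log n ^ 2) ≤ (C1 + C2 + C3) * (r * Real.log n ^ 2) :=
        mul_le_mul_of_nonneg_right (by linarith) h4
      linarith
    refine ⟨C1 + C2 + C3, by positivity, ?_, ?_, hp3, ?_⟩
    · intro l hl p h F G L H N t s k m Λ hH hN hs hF ht hL hc hne hk hm hΛ
      exact up (by positivity) hC1 (by linarith)
        (h1 l hl p h F G L H N t s k m Λ hH hN hs hF ht hL hc hne hk hm hΛ)
    · intro L M d r A B p hd hdL hML hp hco hA hB hsup hr
      exact up (by positivity) hC2 (by linarith)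
        (h2 L M d r A B p hd hdL hML hp hco hA hB hsup hr)
    · intro n m p hn hp hdeg hco hm
      have h4 := hp3 n 1 (m + 1) p hn le_rfl (by omega) hp hdeg hco
        (Pool.Agent.H1.BL.blocks_le hdeg hm)
      push_cast at h4
      exact h4
  · intro ε hε
    obtain ⟨c1, hc1, h1⟩ := Pool.Agent.H1.BL.extremal_prog hε
    obtain ⟨c2, C, hc2, hC, h2⟩ := Pool.Agent.H1.BL.extremal hε
    have low : ∀ {c : ℝ} (n : ℕ), 3 ≤ n → min c1 c2 ≤ c →
        min c1 c2 * Real.sqrt n / Real.log n ≤ c * Real.sqrt n / Real.log n := by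
      intro c n hn hc
      have hlog : 0 ≤ Real.log n := Real.log_natCast_nonneg n
      exact div_le_div_of_nonneg_right
        (mul_le_mul_of_nonneg_right hc (Real.sqrt_nonneg _)) hlog
    refine ⟨min c1 c2, C, lt_min hc1 hc2, hC, ?_, ?_⟩
    · intro n p hn hp hdeg hco hk
      obtain ⟨h3, h4⟩ := h1 n p hn hp hdeg hco hk
      exact ⟨fun d hd hdn => (low n hn (min_le_left _ _)).trans (h3 d hd hdn),
        (low n hn (min_le_left _ _)).trans h4⟩
    · intro n L d r A B p hn hd hdL hLn hp hdeg hco hB hsup hr hk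
      rcases h2 n L d r A B p hn hd hdL hLn hp hdeg hco hB hsup hr hk with h3 | h3
      · exact Or.inl ((low n hn (min_le_right _ _)).trans h3)
      · exact Or.inr h3

end Pool.Agent.Results.MP_ff76c9_an.StructuredSupport
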